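import Mathlib

/-!
Extraction of coefficients and relative traces of norms.
-/

set_option autoImplicit false
set_option linter.unusedSectionVars false

namespace Pool.Agent.Q109.Polar

open Polynomial

/-- a polynomial all of whose values lie in a subspace has its coefficients there -/
lemma coeff_mem_of_eval {K R : Type*} [Field K] [Infinite K] [CommRing R] [Algebra K R]
    (P : Submodule K R) (Q : R[X]) (h : ∀ τ : K, Q.eval (algebraMap K R τ) ∈ P) (j : ℕ) :
    Q.coeff j ∈ P := by
  by_contra hj
  obtain ⟨f, hf, hf'⟩ := P.exists_dual_map_eq_bot_of_notMem hj inferInstance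
  let q : K[X] := ∑ i ∈ Finset.range (Q.natDegree + 1), C (f (Q.coeff i)) * X ^ i
  have hq : ∀ τ : K, q.eval τ = 0 := by
    intro τ
    have h1 : f (Q.eval (algebraMap K R τ)) = 0 := by
      have : f (Q.eval (algebraMap K R τ)) ∈ P.map f := ⟨_, h τ, rfl⟩
      rw [hf'] at this
      exact this
    rw [Polynomial.eval_eq_sum_range, map_sum] at h1
    rw [Polynomial.eval_finsetSum, ← h1]
    refine Finset.sum_congr rfl fun i _ => ?_
    rw [← map_pow, mul_comm (Q.coeff i), ← Algebra.smul_def, map_smul]
    rw [eval_mul, eval_C, eval_pow, eval_X, smul_eq_mul, mul_comm]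
  have hq0 : q = 0 := by
    apply Polynomial.eq_zero_of_infinite_isRoot
    have : {x | IsRoot q x} = Set.univ := by
      ext x; simp [IsRoot, hq x]
    rw [this]
    exact Set.infinite_univ
  apply hf
  have h2 : q.coeff j = 0 := by rw [hq0, coeff_zero]
  by_cases hjd : j < Q.natDegree + 1
  · rw [Polynomial.finsetSum_coeff] at h2
    simp only [coeff_C_mul, coeff_X_pow] at h2
    rw [Finset.sum_eq_single j] at h2
    · simpa using h2
    · intro b _ hb
      simp [Ne.symm hb]
    · intro hj'
      exact absurd (Finset.mem_range.2 hjd) hj'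
  · rw [Polynomial.coeff_eq_zero_of_natDegree_lt (by omega), map_zero]

/-- coefficient extraction in characteristic `p` -/
lemma coeff_prod_pow_mul {R ι : Type*} [CommRing R] (p e : ℕ) [Fact p.Prime] [CharP R p]
    (s : Finset ι) (a b : ι → R) (D : R[X]) (hD : D.natDegree < p ^ e) :
    ((∏ h ∈ s, (C (a h) + X * C (b h))) ^ p ^ e * D).coeff (p ^ e * s.card) =
      (∏ h ∈ s, b h) ^ p ^ e * D.coeff 0 := by
  have hq : 0 < p ^ e := pow_pos (Fact.out : p.Prime).pos e
  let E : R[X] := ∏ h ∈ s, (C (a h ^ p ^ e) + X * C (b h ^ p ^ e))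
  have h1 : (∏ h ∈ s, (C (a h) + X * C (b h))) ^ p ^ e = expand R (p ^ e) E := by
    rw [← Finset.prod_pow, map_prod]
    refine Finset.prod_congr rfl fun h _ => ?_
    rw [add_pow_char_pow, mul_pow, map_add, map_mul, expand_C, expand_C, expand_X, C_pow, C_pow]
  rw [h1, coeff_mul, Finset.sum_eq_single (p ^ e * s.card, 0)]
  · simp only
    rw [mul_comm (p ^ e) s.card, coeff_expand_mul hq]
    congr 1
    have h2 := coeff_prod_of_natDegree_le (s := s)
      (fun h => (C (a h ^ p ^ e) + X * C (b h ^ p ^ e) : R[X])) 1 (by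
        intro h _
        refine (natDegree_add_le _ _).trans (max_le ?_ ?_)
        · rw [natDegree_C]; exact Nat.zero_le _
        · refine (natDegree_mul_le).trans ?_
          rw [natDegree_C]
          exact natDegree_X_le)
    rw [mul_one] at h2
    rw [h2, ← Finset.prod_pow]
    refine Finset.prod_congr rfl fun h _ => ?_
    rw [coeff_add, coeff_C, if_neg one_ne_zero, zero_add, show (1 : ℕ) = 0 + 1 from rfl, coeff_X_mul,
      coeff_C_zero]
  · rintro ⟨i, j⟩ hij hne
    have hij' := Finset.HasAntidiagonal.mem_antidiagonal.1 hij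
    simp only at hij'
    by_cases hj : j < p ^ e
    · by_cases hi : p ^ e ∣ i
      · exfalso
        have h3 : p ^ e ∣ j := by
          have : p ^ e ∣ i + j := by rw [hij']; exact dvd_mul_right _ _
          exact (Nat.dvd_add_right hi).1 this
        have hj0 : j = 0 := Nat.eq_zero_of_dvd_of_lt h3 hj
        apply hne
        rw [hj0] at hij' ⊢
        rw [← hij', add_zero]
      · simp only
        rw [coeff_expand hq, if_neg hi, zero_mul]
    · simp only
      rw [coeff_eq_zero_of_natDegree_lt (show D.natDegree < j by omega), mul_zero]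
  · intro h
    exact absurd (Finset.HasAntidiagonal.mem_antidiagonal.2 (add_zero _)) h

end Pool.Agent.Q109.Polar
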