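import Pool.Agent.Q109.Polar.A

/-!
Relative traces of norms of linear forms.
-/

set_option autoImplicit false
set_option linter.unusedSectionVars false

namespace Pool.Agent.Q109.Polar

open Polynomial

attribute [local instance] Fintype.ofFinite

section tr

variable {K R G : Type*} [Field K] [CommRing R] [Algebra K R] [Group G] [Finite G]
  (A : G →* (R →ₐ[K] R))

/-- the norm of a subgroup -/
noncomputable def nrm (H : Subgroup G) (z : R) : R := ∏ h : H, A h z

/-- the sum over the coset representatives -/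
noncomputable def trc (H : Subgroup G) (y : R) : R := ∑ x : G ⧸ H, A x.out y

lemma nrm_mul (H : Subgroup G) (z w : R) : nrm A H (z * w) = nrm A H z * nrm A H w := by
  simp [nrm, Finset.prod_mul_distrib]

lemma nrm_one (H : Subgroup G) : nrm A H 1 = 1 := by
  simp [nrm]

lemma act_nrm (H : Subgroup G) (h : H) (z : R) : A h (nrm A H z) = nrm A H z := by
  rw [nrm, map_prod]
  refine Fintype.prod_equiv (Equiv.mulLeft h) _ _ fun g => ?_
  rw [Equiv.coe_mulLeft, Subgroup.coe_mul, map_mul, AlgHom.mul_apply]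

lemma trc_add (H : Subgroup G) (y w : R) : trc A H (y + w) = trc A H y + trc A H w := by
  simp [trc, Finset.sum_add_distrib]

/-- the extraction step -/
lemma extract [Infinite K] (p e : ℕ) [Fact p.Prime] [CharP R p] (P : Submodule K R)
    (H : Subgroup G) (y z₁ z₁' z₂ z₂' : R) (c : ℕ) (hc : c * Nat.card H < p ^ e)
    (h : ∀ τ : K, trc A H (y * nrm A H (z₁ + τ • z₁') ^ p ^ e * nrm A H (z₂ + τ • z₂') ^ c) ∈ P) :
    trc A H (y * nrm A H z₁' ^ p ^ e * nrm A H z₂ ^ c) ∈ P := by
  let N₁ : R[X] := ∏ h : H, (C (A h z₁) + X * C (A h z₁'))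
  let N₂ : R[X] := ∏ h : H, (C (A h z₂) + X * C (A h z₂'))
  have hN : ∀ (z z' : R) (τ : K), (∏ h : H, (C (A h z) + X * C (A h z'))).eval
      (algebraMap K R τ) = nrm A H (z + τ • z') := by
    intro z z' τ
    rw [eval_prod, nrm]
    refine Finset.prod_congr rfl fun h _ => ?_
    rw [eval_add, eval_mul, eval_C, eval_C, eval_X, map_add, map_smul, Algebra.smul_def]
  let Q : R[X] := ∑ x : G ⧸ H, (C y * (N₁ ^ p ^ e * N₂ ^ c)).map (A x.out : R →+* R)
  have hQ : ∀ τ : K, Q.eval (algebraMap K R τ) ∈ P := by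
    intro τ
    have h1 := h τ
    rw [eval_finsetSum]
    convert h1 using 1
    refine Finset.sum_congr rfl fun x _ => ?_
    have h2 : (algebraMap K R τ) = (A x.out : R →+* R) (algebraMap K R τ) :=
      ((A x.out).commutes τ).symm
    rw [eval_map]
    conv_lhs => rw [h2]
    rw [eval₂_hom, eval_mul, eval_mul, eval_pow, eval_pow, eval_C, hN, hN, mul_assoc]
    rfl
  have h3 := coeff_mem_of_eval P Q hQ (p ^ e * (Finset.univ : Finset H).card)
  rw [finsetSum_coeff] at h3
  have hD : (N₂ ^ c).natDegree < p ^ e := by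
    refine lt_of_le_of_lt ?_ hc
    refine (natDegree_pow_le).trans ?_
    apply Nat.mul_le_mul_left
    refine (natDegree_prod_le _ _).trans ?_
    refine (Finset.sum_le_card_nsmul _ _ 1 fun h _ => ?_).trans ?_
    · refine (natDegree_add_le _ _).trans (max_le ?_ ?_)
      · rw [natDegree_C]; exact Nat.zero_le _
      · refine (natDegree_mul_le).trans ?_
        rw [natDegree_C]
        exact natDegree_X_le
    · rw [smul_eq_mul, mul_one, Finset.card_univ, Nat.card_eq_fintype_card]
  have h4 : (N₂ ^ c).coeff 0 = nrm A H z₂ ^ c := by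
    rw [coeff_zero_eq_eval_zero, eval_pow, eval_prod]
    congr 1
    refine Finset.prod_congr rfl fun h _ => ?_
    simp
  convert h3 using 1
  refine Finset.sum_congr rfl fun x _ => ?_
  rw [coeff_map, coeff_C_mul, coeff_prod_pow_mul p e _ _ _ _ hD, mul_assoc, h4]
  rfl

/-- trace-compatibility with invariant coefficients -/
lemma trc_smul_inv (H : Subgroup G) (u y : R) (hu : ∀ g, A g u = u) :
    trc A H (u * y) = u * trc A H y := by
  rw [trc, trc, Finset.mul_sum]
  refine Finset.sum_congr rfl fun x _ => ?_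
  rw [map_mul, hu]

lemma trc_sum {ι : Type*} (H : Subgroup G) (s : Finset ι) (f : ι → R) :
    trc A H (∑ i ∈ s, f i) = ∑ i ∈ s, trc A H (f i) := by
  rw [trc, Finset.sum_congr rfl fun x _ => map_sum _ _ _, Finset.sum_comm]
  rfl

/-- the characteristic polynomial over the cosets -/
noncomputable def chr (H : Subgroup G) (ζ : R) : R[X] := ∏ x : G ⧸ H, (X - C (A x.out ζ))

lemma chr_monic (H : Subgroup G) (ζ : R) : (chr A H ζ).Monic :=
  monic_prod_of_monic _ _ fun _ _ => monic_X_sub_C _

lemma chr_natDegree [Nontrivial R] (H : Subgroup G) (ζ : R) :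
    (chr A H ζ).natDegree = Nat.card (G ⧸ H) := by
  rw [chr, natDegree_prod_of_monic _ _ fun _ _ => monic_X_sub_C _]
  simp [Nat.card_eq_fintype_card]

lemma chr_root (H : Subgroup G) (z : R) : (chr A H (nrm A H z)).eval (nrm A H z) = 0 := by
  rw [chr, eval_prod]
  apply Finset.prod_eq_zero (Finset.mem_univ ((1 : G) : G ⧸ H))
  have h1 : (((1 : G) : G ⧸ H).out) ∈ H := by
    have := QuotientGroup.mk_out_eq_mul H (1 : G)
    obtain ⟨h, hh⟩ := this
    rw [hh, one_mul]
    exact h.2
  have h2 := act_nrm A H ⟨_, h1⟩ z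
  rw [eval_sub, eval_X, eval_C, sub_eq_zero]
  exact h2.symm

/-- reduction of the exponent by the characteristic polynomial -/
lemma reduce [Nontrivial R] (P : Subalgebra K R) (hP : ∀ u ∈ P, ∀ g, A g u = u) (H : Subgroup G)
    (y z : R) (hz : ∀ b, (chr A H (nrm A H z)).coeff b ∈ P)
    (h : ∀ c, c < Nat.card (G ⧸ H) → trc A H (y * nrm A H z ^ c) ∈ P) (c : ℕ) :
    trc A H (y * nrm A H z ^ c) ∈ P := by
  induction c using Nat.strong_induction_on with
  | _ c ih =>
    by_cases hc : c < Nat.card (G ⧸ H)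
    · exact h c hc
    push Not at hc
    set m := Nat.card (G ⧸ H) with hm
    set ζ := nrm A H z with hζ
    have h1 := chr_root A H z
    rw [← hζ, eval_eq_sum_range, chr_natDegree, ← hm, Finset.sum_range_succ] at h1
    have h2 : (chr A H ζ).coeff m = 1 := by
      rw [hm, ← chr_natDegree A H ζ]
      exact (chr_monic A H ζ).coeff_natDegree
    rw [h2, one_mul] at h1
    have h3 : ζ ^ c = - ∑ b ∈ Finset.range m, (chr A H ζ).coeff b * ζ ^ (c - m + b) := by
      have h4 : ζ ^ c = ζ ^ (c - m) * ζ ^ m := by rw [← pow_add]; congr 1; omega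
      rw [h4, eq_neg_of_add_eq_zero_right h1, mul_neg, Finset.mul_sum]
      congr 1
      refine Finset.sum_congr rfl fun b _ => ?_
      rw [pow_add]; ring
    have h5 : y * ζ ^ c = ∑ b ∈ Finset.range m, (-(chr A H ζ).coeff b) *
        (y * ζ ^ (c - m + b)) := by
      rw [h3, mul_neg, Finset.mul_sum, ← Finset.sum_neg_distrib]
      refine Finset.sum_congr rfl fun b _ => ?_
      ring
    rw [h5, trc_sum]
    refine P.sum_mem fun b hb => ?_
    rw [trc_smul_inv A H _ _ (hP _ (P.neg_mem (hz b)))]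
    refine P.mul_mem (P.neg_mem (hz b)) (ih _ ?_)
    have := Finset.mem_range.1 hb
    omega

end tr

end Pool.Agent.Q109.Polar
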