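import Pool.Agent.Q109.Polar.B

/-!
The trace lemma.
-/

set_option autoImplicit false
set_option linter.unusedSectionVars false

namespace Pool.Agent.Q109.Polar

open Polynomial

attribute [local instance] Fintype.ofFinite

variable {K R G T S : Type*} [Field K] [CommRing R] [Algebra K R] [Group G] [Finite G]
  [AddCommGroup T] [Module K T] [AddCommGroup S] [Module K S]

/-- products of special linear forms and constants -/
def cl (Z : T →ₗ[K] S →ₗ[K] R) : Submonoid R :=
  Submonoid.closure {r | (∃ t s, r = Z t s) ∨ ∃ c : K, r = algebraMap K R c}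

/-- the trace lemma -/
theorem trace_mem [Infinite K] [Nontrivial R] (p e : ℕ) [Fact p.Prime] [CharP R p]
    (A : G →* (R →ₐ[K] R)) (P : Subalgebra K R) (hP : ∀ u ∈ P, ∀ g, A g u = u)
    (Z : T →ₗ[K] S →ₗ[K] R) (hcard : Nat.card G ≤ p ^ e)
    (hB1 : ∀ (H : Subgroup G) (t : T) (s : S) (c : ℕ), trc A H (nrm A H (Z t s) ^ c) ∈ P)
    (hB2 : ∀ (H : Subgroup G) (t : T) (s : S) (b : ℕ), (chr A H (nrm A H (Z t s))).coeff b ∈ P)
    (H : Subgroup G) (W : R) (hW : W ∈ cl Z) :
    ∀ (t : T) (s : S) (c : ℕ), trc A H (nrm A H W ^ p ^ e * nrm A H (Z t s) ^ c) ∈ P := by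
  have hcG : Nat.card G = Nat.card (G ⧸ H) * Nat.card H := Subgroup.card_eq_card_quotient_mul_card_subgroup H
  have hHpos : 0 < Nat.card H := Nat.card_pos
  induction hW using Submonoid.closure_induction_left with
  | one =>
    intro t s c
    rw [nrm_one, one_pow, one_mul]
    exact hB1 H t s c
  | mul_left x hx W' hW' ih =>
    rcases hx with ⟨t0, s0, rfl⟩ | ⟨c0, rfl⟩
    · intro t s c
      rw [nrm_mul, mul_pow, mul_comm (nrm A H (Z t0 s0) ^ p ^ e)]
      refine reduce A P hP H _ _ (hB2 H t s) (fun c hc => ?_) c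
      have hc' : c * Nat.card H < p ^ e := by
        refine lt_of_lt_of_le ?_ hcard
        rw [hcG]
        exact Nat.mul_lt_mul_of_pos_right hc hHpos
      have ha : ∀ s : S, trc A H (nrm A H W' ^ p ^ e * nrm A H (Z t0 s) ^ p ^ e *
          nrm A H (Z t s) ^ c) ∈ P := by
        intro s
        refine extract A p e (Subalgebra.toSubmodule P) H _ (Z t s) _ _ (Z t0 s) c hc' fun τ => ?_
        have h1 := ih (t + τ • t0) s (p ^ e + c)
        rw [map_add, map_smul, LinearMap.add_apply, LinearMap.smul_apply, pow_add, ← mul_assoc] at h1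
        exact h1
      refine extract A p e (Subalgebra.toSubmodule P) H _ (Z t0 s) _ _ (Z t s0) c hc' fun τ => ?_
      have h1 := ha (s + τ • s0)
      rw [map_add, map_smul, map_add, map_smul] at h1
      exact h1
    · intro t s c
      have h1 : nrm A H (algebraMap K R c0) = algebraMap K R (∏ _h : H, c0) := by
        rw [nrm, map_prod]
        exact Finset.prod_congr rfl fun h _ => (A h).commutes c0
      rw [nrm_mul, h1, mul_pow, mul_assoc, ← map_pow, trc_smul_inv]
      · exact P.mul_mem (P.algebraMap_mem _) (ih t s c)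
      · intro g
        exact (A g).commutes _

/-- the trace lemma without the auxiliary factor -/
theorem trace_mem' [Infinite K] [Nontrivial R] (p e : ℕ) [Fact p.Prime] [CharP R p]
    (A : G →* (R →ₐ[K] R)) (P : Subalgebra K R) (hP : ∀ u ∈ P, ∀ g, A g u = u)
    (Z : T →ₗ[K] S →ₗ[K] R) (hcard : Nat.card G ≤ p ^ e)
    (hB1 : ∀ (H : Subgroup G) (t : T) (s : S) (c : ℕ), trc A H (nrm A H (Z t s) ^ c) ∈ P)
    (hB2 : ∀ (H : Subgroup G) (t : T) (s : S) (b : ℕ), (chr A H (nrm A H (Z t s))).coeff b ∈ P)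
    (H : Subgroup G) (W : R) (hW : W ∈ cl Z) : trc A H (nrm A H W ^ p ^ e) ∈ P := by
  have h1 := trace_mem p e A P hP Z hcard hB1 hB2 H W hW 0 0 0
  rwa [pow_zero, mul_one] at h1

end Pool.Agent.Q109.Polar
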