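import Pool.Agent.Q109.Polar.C

/-!
Decomposition into orbits.
-/

set_option autoImplicit false
set_option linter.unusedSectionVars false

namespace Pool.Agent.Q109.Polar

open Polynomial MulAction

attribute [local instance] Fintype.ofFinite

section

variable {K R G : Type*} [Field K] [CommRing R] [Algebra K R] [Group G] [Finite G]
  (A : G →* (R →ₐ[K] R))

/-- a sum over a finite set with action is a sum of relative traces -/
lemma sum_orbits {X : Type*} [Fintype X] [MulAction G X] (P : Subalgebra K R) (F : X → R)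
    (hF : ∀ (g : G) (x : X), F (g • x) = A g (F x))
    (h : ∀ x : X, trc A (stabilizer G x) (F x) ∈ P) : ∑ x, F x ∈ P := by
  rw [← (selfEquivSigmaOrbitsQuotientStabilizer G X).symm.sum_comp]
  have h1 : ∀ i : (Σ ω : Quotient (orbitRel G X), G ⧸ stabilizer G ω.out),
      F ((selfEquivSigmaOrbitsQuotientStabilizer G X).symm i) = A i.2.out (F i.1.out) := by
    rintro ⟨ω, x⟩
    rw [← hF]
    congr 1
    have h2 : (selfEquivSigmaOrbitsQuotientStabilizer G X).symm ⟨ω, (x.out : G ⧸ stabilizer G ω.out)⟩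
      = x.out • ω.out := rfl
    rw [QuotientGroup.out_eq'] at h2
    exact h2
  rw [Finset.sum_congr rfl fun i _ => h1 i]
  have h3 := Fintype.sum_sigma
    (fun i : (Σ ω : Quotient (orbitRel G X), G ⧸ stabilizer G ω.out) => A i.2.out (F i.1.out))
  have h4 : (∑ i : (Σ ω : Quotient (orbitRel G X), G ⧸ stabilizer G ω.out), A i.2.out (F i.1.out))
      = ∑ ω : Quotient (orbitRel G X), ∑ x : G ⧸ stabilizer G ω.out, A x.out (F ω.out) := by
    rw [← h3]
  rw [h4]
  exact P.sum_mem fun ω _ => h ω.out

attribute [local instance] arrowAction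

variable {J : Type*} (u : Option J → R)

/-- the product attached to a function -/
noncomputable def Mn (φ : G → Option J) : R := ∏ g, A g (u (φ g))

lemma Mn_smul (g : G) (φ : G → Option J) : Mn A u (g • φ) = A g (Mn A u φ) := by
  rw [Mn, Mn, map_prod]
  symm
  refine Fintype.prod_equiv (Equiv.mulLeft g) _ _ fun g' => ?_
  have h1 : (g • φ) (Equiv.mulLeft g g') = φ g' := by
    change φ (g⁻¹ • (g * g')) = φ g'
    rw [smul_eq_mul, inv_mul_cancel_left]
  rw [h1, Equiv.coe_mulLeft, map_mul, AlgHom.mul_apply]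

/-- the reduced product -/
noncomputable def Wn (φ : G → Option J) : R :=
  ∏ x : G ⧸ stabilizer G φ, A (x.out)⁻¹ (u (φ (x.out)⁻¹))

lemma nrm_Wn (φ : G → Option J) : nrm A (stabilizer G φ) (Wn A u φ) = Mn A u φ := by
  rw [nrm, Mn]
  have h1 : ∀ h : stabilizer G φ, A h (Wn A u φ) = ∏ x : G ⧸ stabilizer G φ,
      A ((h : G) * (x.out)⁻¹) (u (φ ((h : G) * (x.out)⁻¹))) := by
    intro h
    rw [Wn, map_prod]
    refine Finset.prod_congr rfl fun x _ => ?_
    have h2 : φ ((h : G) * (x.out)⁻¹) = φ (x.out)⁻¹ := by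
      have h3 : ((h : G)⁻¹ • φ) (x.out)⁻¹ = φ (x.out)⁻¹ := by
        have : (h : G)⁻¹ • φ = φ := ((stabilizer G φ).inv_mem h.2)
        rw [this]
      rw [← h3]
      change _ = φ (((h : G)⁻¹)⁻¹ • _)
      rw [inv_inv, smul_eq_mul]
    rw [h2, map_mul, AlgHom.mul_apply]
  rw [Finset.prod_congr rfl fun h _ => h1 h, ← Fintype.prod_prod_type']
  have hb : Function.Bijective (fun z : stabilizer G φ × (G ⧸ stabilizer G φ) =>
      (z.1 : G) * (z.2.out)⁻¹) := by
    constructor
    · rintro ⟨h, x⟩ ⟨h', x'⟩ hxx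
      simp only at hxx
      have h2 : x.out * (h : G)⁻¹ = x'.out * (h' : G)⁻¹ := by
        have := congrArg (fun g => g⁻¹) hxx
        simpa using this
      have h3 : x = x' := by
        rw [← QuotientGroup.out_eq' x, ← QuotientGroup.out_eq' x', QuotientGroup.eq]
        have h4 : (x.out)⁻¹ * x'.out = (h : G)⁻¹ * h' := by
          have : x'.out = x.out * (h : G)⁻¹ * h' := by rw [h2]; group
          rw [this]; group
        rw [h4]
        exact (stabilizer G φ).mul_mem ((stabilizer G φ).inv_mem h.2) h'.2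
      subst h3
      have h5 : h = h' := by
        apply Subtype.ext
        exact mul_right_cancel hxx
      rw [h5]
    · intro g
      obtain ⟨h0, hh0⟩ := QuotientGroup.mk_out_eq_mul (stabilizer G φ) g⁻¹
      refine ⟨⟨h0, ((g⁻¹ : G) : G ⧸ stabilizer G φ)⟩, ?_⟩
      simp only
      rw [hh0]
      group
  have h6 := Fintype.prod_bijective _ hb
    (fun z : stabilizer G φ × (G ⧸ stabilizer G φ) =>
      A ((z.1 : G) * (z.2.out)⁻¹) (u (φ ((z.1 : G) * (z.2.out)⁻¹))))
    (fun g => A g (u (φ g))) (fun _ => rfl)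
  rw [← h6]

open Classical in
/-- the weight of a function -/
noncomputable def wt (φ : G → Option J) : ℕ := ∑ g, if φ g = none then 0 else 1

lemma wt_smul (g : G) (φ : G → Option J) : wt (g • φ) = wt φ := by
  rw [wt, wt]
  symm
  refine Fintype.sum_equiv (Equiv.mulLeft g) _ _ fun g' => ?_
  have h1 : (g • φ) (Equiv.mulLeft g g') = φ g' := by
    change φ (g⁻¹ • (g * g')) = φ g'
    rw [smul_eq_mul, inv_mul_cancel_left]
  rw [h1]

open Classical in
lemma sum_weight [Finite J] (hu : u none = 1) (f : R) (hf : ∑ j : J, u (some j) = f) (k : ℕ) :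
    ∑ φ : G → Option J, (if wt φ = k then Mn A u φ else 0) =
      (∏ g : G, (1 + X * C (A g f))).coeff k := by
  let V : G → Option J → R[X] := fun g o => X ^ (if o = none then 0 else 1) * C (A g (u o))
  have h1 : ∀ g : G, (1 + X * C (A g f) : R[X]) = ∑ o : Option J, V g o := by
    intro g
    have h2 : (∑ o : Option J, V g o) = V g none + ∑ j : J, V g (some j) := by
      have := Fintype.sum_option (V g)
      rw [← this]
    rw [h2]
    simp only [V, hu, if_true, pow_zero, map_one, one_mul, reduceCtorEq, if_false, pow_one]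
    rw [← Finset.mul_sum, ← map_sum, ← map_sum, hf]
  rw [Finset.prod_congr rfl fun g _ => h1 g]
  have h3 : (∏ g : G, ∑ o : Option J, V g o) = ∑ φ : G → Option J, ∏ g, V g (φ g) := by
    rw [Finset.prod_univ_sum]
    congr 1
  rw [h3, finsetSum_coeff]
  refine Finset.sum_congr rfl fun φ _ => ?_
  simp only [V]
  rw [Finset.prod_mul_distrib, Finset.prod_pow_eq_pow_sum, ← map_prod, coeff_X_pow_mul']
  change _ = if wt φ ≤ k then (C (Mn A u φ)).coeff (k - wt φ) else 0
  rcases lt_trichotomy (wt φ) k with h | h | h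
  · rw [if_neg h.ne, if_pos h.le, coeff_C, if_neg (by omega)]
  · rw [if_pos h, if_pos h.le, coeff_C, if_pos (by omega)]
  · rw [if_neg h.ne', if_neg (by omega)]

end

/-- the coefficient in characteristic `p` -/
lemma coeff_pow_char {R : Type*} [CommRing R] (p a b : ℕ) [Fact p.Prime] [CharP R p] (f : R) :
    ((1 + X * C f) ^ (p ^ a * b)).coeff (p ^ a) = (b : R) * f ^ p ^ a := by
  have hq : 0 < p ^ a := pow_pos (Fact.out : p.Prime).pos a
  have h1 : ((1 + X * C f) ^ (p ^ a * b) : R[X]) =
      expand R (p ^ a) ((1 + X * C (f ^ p ^ a)) ^ b) := by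
    rw [pow_mul, add_pow_char_pow, one_pow, mul_pow, map_pow, map_add, map_one, map_mul, expand_X,
      expand_C, C_pow]
  rw [h1]
  have h2 := coeff_expand_mul hq ((1 + X * C (f ^ p ^ a)) ^ b : R[X]) 1
  rw [one_mul] at h2
  rw [h2]
  generalize f ^ p ^ a = g
  have h3 : ∀ b : ℕ, ((1 + X * C g) ^ b : R[X]).coeff 0 = 1 ∧
      ((1 + X * C g) ^ b : R[X]).coeff 1 = (b : R) * g := by
    intro b
    induction b with
    | zero => simp [coeff_one]
    | succ b ih =>
      obtain ⟨ih0, ih1⟩ := ih
      constructor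
      · rw [pow_succ, mul_coeff_zero, ih0]; simp
      · rw [pow_succ, mul_coeff_one, ih0, ih1]
        simp only [coeff_add, coeff_X_mul_zero, coeff_X_mul, coeff_C_zero, coeff_one]
        push_cast
        simp
        ring
  exact (h3 b).2

end Pool.Agent.Q109.Polar
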