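import Mathlib

/-!
Polynomial functions on `V ^ n`, the action of `G`, polarizations.
-/

set_option autoImplicit false

namespace Pool.Agent.Q109.Polar

open MvPolynomial

universe u v

variable {k : Type u} {G : Type v} [Field k] [Group G] {m : ℕ}

/-- The action on `k[V]`, `V = k ^ m` with `G` acting by the matrices `ρ g`: this is
`f ↦ (v ↦ f (ρ g v))`. -/
noncomputable def actV (ρ : G →* Matrix (Fin m) (Fin m) k) (g : G) :
    MvPolynomial (Fin m) k →ₐ[k] MvPolynomial (Fin m) k :=
  aeval fun a => ∑ b, C (ρ g a b) * X b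

/-- The diagonal action on `k[V ^ n]`: this is `f ↦ ((v_i) ↦ f ((ρ g v_i)))`. The variable
`X (i, a)` is the `a`-th coordinate of `v_i`. -/
noncomputable def act (ρ : G →* Matrix (Fin m) (Fin m) k) (n : ℕ) (g : G) :
    MvPolynomial (Fin n × Fin m) k →ₐ[k] MvPolynomial (Fin n × Fin m) k :=
  aeval fun ia => ∑ b, C (ρ g ia.2 b) * X (ia.1, b)

/-- The full polarization `f (t_1 v_1 + ... + t_n v_n)`, a polynomial in `t_1, ..., t_n` with
coefficients in `k[V ^ n]`. -/
noncomputable def polar (n : ℕ) : MvPolynomial (Fin m) k →ₐ[k]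
    MvPolynomial (Fin n) (MvPolynomial (Fin n × Fin m) k) :=
  aeval fun a => ∑ i, X i * C (X (i, a))

/-- The subalgebra `P_n` generated by all polarizations of invariants of `V`. -/
noncomputable def P (ρ : G →* Matrix (Fin m) (Fin m) k) (n : ℕ) :
    Subalgebra k (MvPolynomial (Fin n × Fin m) k) :=
  Algebra.adjoin k {h | ∃ f : MvPolynomial (Fin m) k, (∀ g, actV ρ g f = f) ∧
    ∃ β : Fin n →₀ ℕ, h = (polar n f).coeff β}

end Pool.Agent.Q109.Polar
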