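import Pool.Agent.Q109.Polar.F

/-!
Extension of the ground field.
-/

set_option autoImplicit false
set_option linter.unusedSectionVars false

namespace Pool.Agent.Q109.Polar

open MvPolynomial

universe u v w

section coeffwise

variable {k K σ τ : Type*} [Field k] [Field K] [Algebra k K]

/-- apply a linear form to all coefficients -/
noncomputable def Lh (L : K →ₗ[k] k) (F : MvPolynomial σ K) : MvPolynomial σ k :=
  ∑ d ∈ F.support, monomial d (L (coeff d F))

lemma coeff_Lh (L : K →ₗ[k] k) (F : MvPolynomial σ K) (d : σ →₀ ℕ) :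
    coeff d (Lh L F) = L (coeff d F) := by
  classical
  rw [Lh, coeff_sum]
  simp only [coeff_monomial]
  rw [Finset.sum_ite_eq']
  split_ifs with h
  · rfl
  · rw [notMem_support_iff.1 h, map_zero]

lemma Lh_add (L : K →ₗ[k] k) (F F' : MvPolynomial σ K) : Lh L (F + F') = Lh L F + Lh L F' := by
  ext d
  rw [coeff_add, coeff_Lh, coeff_Lh, coeff_Lh, coeff_add, map_add]

lemma Lh_C_mul (L : K →ₗ[k] k) (c : K) (y : MvPolynomial σ k) :
    Lh L (C c * map (algebraMap k K) y) = C (L c) * y := by
  ext d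
  rw [coeff_Lh, coeff_C_mul, coeff_C_mul, coeff_map, mul_comm, ← Algebra.smul_def, map_smul,
    smul_eq_mul, mul_comm]

lemma Lh_map (L : K →ₗ[k] k) (h1 : L 1 = 1) (y : MvPolynomial σ k) :
    Lh L (map (algebraMap k K) y) = y := by
  have := Lh_C_mul L 1 y
  rwa [C_1, one_mul, h1, C_1, one_mul] at this

lemma hom_map (Φ : MvPolynomial σ k →ₐ[k] MvPolynomial τ k)
    (Ψ : MvPolynomial σ K →ₐ[K] MvPolynomial τ K)
    (h : ∀ i, Ψ (X i) = map (algebraMap k K) (Φ (X i))) (y : MvPolynomial σ k) :
    Ψ (map (algebraMap k K) y) = map (algebraMap k K) (Φ y) := by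
  have h1 : (Ψ : MvPolynomial σ K →+* MvPolynomial τ K).comp (map (algebraMap k K)) =
      (map (algebraMap k K)).comp (Φ : MvPolynomial σ k →+* MvPolynomial τ k) := by
    apply ringHom_ext
    · intro r
      simp only [RingHom.comp_apply, map_C, RingHom.coe_coe, algHom_C]
      simp only [MvPolynomial.algebraMap_eq, map_C]
    · intro i
      simp only [RingHom.comp_apply, map_X, RingHom.coe_coe, h]
  exact DFunLike.congr_fun h1 y

lemma Lh_hom (Φ : MvPolynomial σ k →ₐ[k] MvPolynomial τ k)
    (Ψ : MvPolynomial σ K →ₐ[K] MvPolynomial τ K)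
    (h : ∀ i, Ψ (X i) = map (algebraMap k K) (Φ (X i))) (L : K →ₗ[k] k) (F : MvPolynomial σ K) :
    Lh L (Ψ F) = Φ (Lh L F) := by
  induction F using MvPolynomial.induction_on' with
  | monomial d c =>
    have h1 : (monomial d c : MvPolynomial σ K) = C c * map (algebraMap k K) (monomial d 1) := by
      rw [map_monomial, C_mul_monomial, map_one, mul_one]
    rw [h1, map_mul, hom_map Φ Ψ h, Lh_C_mul, map_mul, algHom_C, algHom_C]
    simp only [MvPolynomial.algebraMap_eq]
    rw [Lh_C_mul]
  | add p q hp hq => rw [map_add, Lh_add, Lh_add, map_add, hp, hq]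

/-- expansion in a basis of `K` over `k` -/
lemma exists_expand {ι : Type*} (B : Module.Basis ι k K) (F : MvPolynomial σ K) :
    ∃ I : Finset ι, F = ∑ j ∈ I, C (B j) * map (algebraMap k K) (Lh (B.coord j) F) := by
  classical
  refine ⟨F.support.biUnion fun d => (B.repr (coeff d F)).support, ?_⟩
  ext d
  rw [coeff_sum]
  simp only [coeff_C_mul, coeff_map, coeff_Lh, Module.Basis.coord_apply]
  by_cases hd : d ∈ F.support
  · have h1 := B.linearCombination_repr (coeff d F)
    rw [Finsupp.linearCombination_apply, Finsupp.sum] at h1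
    conv_lhs => rw [← h1]
    refine Finset.sum_subset_zero_on_sdiff ?_ ?_ ?_
    · intro j hj
      exact Finset.mem_biUnion.2 ⟨d, hd, hj⟩
    · intro j hj
      have := (Finset.mem_sdiff.1 hj).2
      rw [Finsupp.notMem_support_iff.1 this, map_zero, mul_zero]
    · intro j _
      rw [Algebra.smul_def, mul_comm]
  · rw [notMem_support_iff.1 hd, map_zero]
    simp

end coeffwise

section descent

variable {k : Type u} {G : Type v} {K : Type w} [Field k] [Group G] {m : ℕ} [Field K] [Algebra k K]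
  (ρ : G →* Matrix (Fin m) (Fin m) k)

variable (K) in
/-- the extended representation -/
noncomputable def ext : G →* Matrix (Fin m) (Fin m) K :=
  ((algebraMap k K).mapMatrix : Matrix (Fin m) (Fin m) k →+* Matrix (Fin m) (Fin m) K
    ).toMonoidHom.comp ρ

lemma ext_apply (g : G) (a b : Fin m) : ext K ρ g a b = algebraMap k K (ρ g a b) := rfl

lemma act_ext (n : ℕ) (g : G) (i : Fin n × Fin m) :
    act (ext K ρ) n g (X i) = map (algebraMap k K) (act ρ n g (X i)) := by
  simp only [act, aeval_X, map_sum, map_mul, map_C, map_X, ext_apply]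

lemma actV_ext (g : G) (i : Fin m) :
    actV (ext K ρ) g (X i) = map (algebraMap k K) (actV ρ g (X i)) := by
  simp only [actV, aeval_X, map_sum, map_mul, map_C, map_X, ext_apply]

variable (K) in
/-- the extended algebra -/
noncomputable def PK (n : ℕ) :
    Subalgebra K (MvPolynomial (Fin n × Fin m) K) :=
  Algebra.adjoin K (map (algebraMap k K) '' (P ρ n : Set (MvPolynomial (Fin n × Fin m) k)))

lemma PK_inv (n : ℕ) (u : MvPolynomial (Fin n × Fin m) K) (hu : u ∈ PK K ρ n) (g : G) :
    AN (ext K ρ) n g u = u := by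
  induction hu using Algebra.adjoin_induction with
  | mem x hx =>
    obtain ⟨y, hy, rfl⟩ := hx
    change act (ext K ρ) n g⁻¹ _ = _
    rw [hom_map (act ρ n g⁻¹) (act (ext K ρ) n g⁻¹) (act_ext ρ n g⁻¹), P_inv ρ n y hy]
  | algebraMap r => exact (AN (ext K ρ) n g).commutes r
  | add x y _ _ hx hy => rw [map_add, hx, hy]
  | mul x y _ _ hx hy => rw [map_mul, hx, hy]

lemma ev_mem (n : ℕ) (s : Fin n → K) (y : MvPolynomial (Fin m) k) (hy : ∀ g, actV ρ g y = y) :
    ev n s (map (algebraMap k K) y) ∈ PK K ρ n := by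
  let Θ : MvPolynomial (Fin n) (MvPolynomial (Fin n × Fin m) k) →+* MvPolynomial (Fin n × Fin m) K :=
    eval₂Hom (map (algebraMap k K)) (fun i => C (s i))
  have h1 : ((ev n s : MvPolynomial (Fin m) K →ₐ[K] _) : MvPolynomial (Fin m) K →+* _).comp
      (map (algebraMap k K)) = Θ.comp (polar n : MvPolynomial (Fin m) k →ₐ[k] _).toRingHom := by
    apply ringHom_ext
    · intro r
      simp only [Θ, polar, ev, RingHom.comp_apply, AlgHom.toRingHom_eq_coe, RingHom.coe_coe,
        algHom_C, map_C, MvPolynomial.algebraMap_apply, coe_eval₂Hom, eval₂_C,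
        Algebra.algebraMap_self_apply]
    · intro a
      simp only [Θ, polar, ev, RingHom.comp_apply, AlgHom.toRingHom_eq_coe, RingHom.coe_coe,
        map_X, aeval_X, map_sum, map_mul, coe_eval₂Hom, eval₂_C, eval₂_X]
  have h2 := DFunLike.congr_fun h1 y
  change ev n s (map (algebraMap k K) y) = Θ (polar n y) at h2
  rw [h2]
  simp only [Θ, coe_eval₂Hom, eval₂_eq']
  refine Subalgebra.sum_mem _ fun d _ => Subalgebra.mul_mem _ ?_ ?_
  · apply Algebra.subset_adjoin
    refine ⟨_, ?_, rfl⟩
    apply Algebra.subset_adjoin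
    exact ⟨y, hy, d, rfl⟩
  · exact Subalgebra.prod_mem _ fun i _ => Subalgebra.pow_mem _ ((PK K ρ n).algebraMap_mem (s i)) _

lemma ev_mem' (n : ℕ) (s : Fin n → K) (F : MvPolynomial (Fin m) K)
    (hF : ∀ g, AV (ext K ρ) g F = F) : ev n s F ∈ PK K ρ n := by
  obtain ⟨I, hI⟩ := exists_expand (Module.Basis.ofVectorSpace k K) F
  rw [hI, map_sum]
  refine Subalgebra.sum_mem _ fun j _ => ?_
  rw [map_mul, algHom_C]
  refine Subalgebra.mul_mem _ (Subalgebra.algebraMap_mem _ _) (ev_mem ρ n s _ fun g => ?_)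
  rw [← Lh_hom (actV ρ g) (actV (ext K ρ) g) (actV_ext ρ g)]
  congr 1
  have h1 := hF g⁻¹
  change actV (ext K ρ) (g⁻¹)⁻¹ F = F at h1
  rwa [inv_inv] at h1

lemma PK_Lh (n : ℕ) (u : MvPolynomial (Fin n × Fin m) K) (hu : u ∈ PK K ρ n) :
    ∀ L : K →ₗ[k] k, Lh L u ∈ P ρ n := by
  have h1 : u ∈ Submodule.span K (map (algebraMap k K) ''
      (P ρ n : Set (MvPolynomial (Fin n × Fin m) k))) := by
    have h2 : u ∈ Subalgebra.toSubmodule (PK K ρ n) := hu
    rw [PK, Algebra.adjoin_eq_span] at h2
    have h3 : Submonoid.closure (map (algebraMap k K) ''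
        (P ρ n : Set (MvPolynomial (Fin n × Fin m) k))) =
        (P ρ n).toSubmonoid.map (map (algebraMap k K) : MvPolynomial (Fin n × Fin m) k →+*
          MvPolynomial (Fin n × Fin m) K) := by
      have := Submonoid.closure_eq ((P ρ n).toSubmonoid.map
        (map (algebraMap k K) : MvPolynomial (Fin n × Fin m) k →+* MvPolynomial (Fin n × Fin m) K))
      exact this
    rw [h3] at h2
    exact h2
  clear hu
  induction h1 using Submodule.span_induction with
  | mem x hx =>
    obtain ⟨y, hy, rfl⟩ := hx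
    intro L
    have h4 := Lh_C_mul L 1 y
    rw [C_1, one_mul] at h4
    rw [h4]
    exact (P ρ n).mul_mem ((P ρ n).algebraMap_mem _) hy
  | zero =>
    intro L
    have : Lh L (0 : MvPolynomial (Fin n × Fin m) K) = 0 := by simp [Lh]
    rw [this]
    exact (P ρ n).zero_mem
  | add x y _ _ hx hy =>
    intro L
    rw [Lh_add]
    exact (P ρ n).add_mem (hx L) (hy L)
  | smul c x _ hx =>
    intro L
    have h5 : Lh L (c • x) = Lh (L ∘ₗ LinearMap.mulLeft k c) x := by
      ext d
      rw [coeff_Lh, coeff_Lh, coeff_smul]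
      rfl
    rw [h5]
    exact hx _

end descent

end Pool.Agent.Q109.Polar
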