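import Pool.Agent.Q109.Polar.D

/-!
The abstract form of the main theorem.
-/

set_option autoImplicit false
set_option linter.unusedSectionVars false

namespace Pool.Agent.Q109.Polar

open Polynomial MulAction

attribute [local instance] Fintype.ofFinite

section

variable {K R G T S : Type*} [Field K] [CommRing R] [Algebra K R] [Group G] [Finite G]
  [AddCommGroup T] [Module K T] [AddCommGroup S] [Module K S]

lemma act_cl (A : G →* (R →ₐ[K] R)) (Z : T →ₗ[K] S →ₗ[K] R)
    (hZA : ∀ (g : G) (t : T) (s : S), ∃ t' : T, A g (Z t s) = Z t' s) (g : G) (w : R)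
    (hw : w ∈ cl Z) : A g w ∈ cl Z := by
  induction hw using Submonoid.closure_induction with
  | mem x hx =>
    rcases hx with ⟨t, s, rfl⟩ | ⟨c, rfl⟩
    · obtain ⟨t', ht'⟩ := hZA g t s
      rw [ht']
      exact Submonoid.subset_closure (Or.inl ⟨t', s, rfl⟩)
    · rw [(A g).commutes]
      exact Submonoid.subset_closure (Or.inr ⟨c, rfl⟩)
  | one => rw [map_one]; exact (cl Z).one_mem
  | mul x y _ _ hx hy => rw [map_mul]; exact (cl Z).mul_mem hx hy

attribute [local instance] arrowAction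

open Classical in
/-- the abstract main theorem -/
theorem main_abs [Infinite K] [Nontrivial R] (p a b e : ℕ) [Fact p.Prime] [CharP R p]
    (A : G →* (R →ₐ[K] R)) (P : Subalgebra K R) (hP : ∀ u ∈ P, ∀ g, A g u = u)
    (Z : T →ₗ[K] S →ₗ[K] R) (hcard : Nat.card G ≤ p ^ e) (hG : Nat.card G = p ^ a * b)
    (hb : ¬ p ∣ b)
    (hB1 : ∀ (H : Subgroup G) (t : T) (s : S) (c : ℕ), trc A H (nrm A H (Z t s) ^ c) ∈ P)
    (hB2 : ∀ (H : Subgroup G) (t : T) (s : S) (b : ℕ), (chr A H (nrm A H (Z t s))).coeff b ∈ P)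
    (hZA : ∀ (g : G) (t : T) (s : S), ∃ t' : T, A g (Z t s) = Z t' s)
    {J : Type*} [Finite J] (w : J → R) (hw : ∀ j, w j ∈ cl Z) (f : R) (hf : ∑ j, w j = f)
    (hfi : ∀ g, A g f = f) : f ^ p ^ (a + e) ∈ P := by
  let u : Option J → R := fun o => o.elim 1 w
  have hu1 : u none = 1 := rfl
  have huw : ∀ o, u o ∈ cl Z := by
    intro o
    cases o with
    | none => exact (cl Z).one_mem
    | some j => exact hw j
  let F : (G → Option J) → R := fun φ => if wt φ = p ^ a then Mn A u φ ^ p ^ e else 0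
  have hF : ∀ (g : G) (φ : G → Option J), F (g • φ) = A g (F φ) := by
    intro g φ
    simp only [F]
    rw [wt_smul, Mn_smul]
    split_ifs with h
    · rw [map_pow]
    · rw [map_zero]
  have h1 : ∑ φ, F φ ∈ P := by
    refine sum_orbits A P F hF fun φ => ?_
    simp only [F]
    split_ifs with h
    · rw [← nrm_Wn]
      refine trace_mem' p e A P hP Z hcard hB1 hB2 _ _ ?_
      refine (cl Z).prod_mem fun x _ => ?_
      exact act_cl A Z hZA _ _ (huw _)
    · have : trc A (stabilizer G φ) (0 : R) = 0 := by simp [trc]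
      rw [this]
      exact P.zero_mem
  have h2 : ∑ φ, F φ = ((b : R) * f ^ p ^ a) ^ p ^ e := by
    have h3 := sum_weight A u hu1 f hf (p ^ a)
    have h4 : (∏ g : G, (1 + X * C (A g f)) : R[X]) = (1 + X * C f) ^ (p ^ a * b) := by
      rw [← hG, Nat.card_eq_fintype_card, ← Finset.card_univ, ← Finset.prod_const]
      exact Finset.prod_congr rfl fun g _ => by rw [hfi]
    rw [h4, coeff_pow_char] at h3
    rw [← h3, sum_pow_char_pow]
    refine Finset.sum_congr rfl fun φ _ => ?_
    simp only [F]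
    split_ifs with h
    · rfl
    · rw [zero_pow (pow_pos (Fact.out : p.Prime).pos e).ne']
  rw [h2, mul_pow, ← pow_mul, ← pow_add] at h1
  have hbK : (b : K) ≠ 0 := by
    intro h5
    apply hb
    have h6 : (b : R) = 0 := by
      rw [← map_natCast (algebraMap K R) b, h5, map_zero]
    exact (CharP.cast_eq_zero_iff R p b).1 h6
  have h7 : (b : R) ^ p ^ e = algebraMap K R ((b : K) ^ p ^ e) := by
    rw [map_pow, map_natCast]
  rw [h7] at h1
  have h8 := P.mul_mem (P.algebraMap_mem (((b : K) ^ p ^ e)⁻¹)) h1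
  rwa [← mul_assoc, ← map_mul, inv_mul_cancel₀ (pow_ne_zero _ hbK), map_one, one_mul] at h8

end

section inv

variable {K R G : Type*} [Field K] [CommRing R] [Algebra K R] [Group G] [Finite G]
  (A : G →* (R →ₐ[K] R))

lemma act_eq_of_mk (H : Subgroup G) (y : R) (hy : ∀ h ∈ H, A h y = y) (g g' : G)
    (hgg : (g : G ⧸ H) = g') : A g y = A g' y := by
  have h1 : g⁻¹ * g' ∈ H := QuotientGroup.eq.1 hgg
  have h2 : g' = g * (g⁻¹ * g') := by group
  rw [h2, map_mul, AlgHom.mul_apply, hy _ h1]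

lemma act_out (H : Subgroup G) (y : R) (hy : ∀ h ∈ H, A h y = y) (g : G) (x : G ⧸ H) :
    A g (A x.out y) = A (g • x).out y := by
  rw [← AlgHom.mul_apply, ← map_mul]
  apply act_eq_of_mk A H y hy
  rw [QuotientGroup.out_eq', ← smul_eq_mul, MulAction.Quotient.coe_smul_out]

lemma act_trc (H : Subgroup G) (y : R) (hy : ∀ h ∈ H, A h y = y) (g : G) :
    A g (trc A H y) = trc A H y := by
  rw [trc, map_sum]
  refine Fintype.sum_equiv (MulAction.toPerm g) _ _ fun x => ?_
  rw [act_out A H y hy]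
  rfl

lemma act_chr (H : Subgroup G) (y : R) (hy : ∀ h ∈ H, A h y = y) (g : G) (b : ℕ) :
    A g ((chr A H y).coeff b) = (chr A H y).coeff b := by
  have h1 : (chr A H y).map (A g : R →+* R) = chr A H y := by
    rw [chr, Polynomial.map_prod]
    refine Fintype.prod_equiv (MulAction.toPerm g) _ _ fun x => ?_
    rw [Polynomial.map_sub, map_X, map_C]
    have := act_out A H y hy g x
    change X - C (A g (A x.out y)) = _
    rw [this]
    rfl
  conv_rhs => rw [← h1]
  rw [coeff_map]
  rfl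

lemma nrm_pow_inv (H : Subgroup G) (z : R) (c : ℕ) :
    ∀ h ∈ H, A h (nrm A H z ^ c) = nrm A H z ^ c := by
  intro h hh
  rw [map_pow, act_nrm A H ⟨h, hh⟩]

end inv

section hom

variable {K R R' G : Type*} [Field K] [CommRing R] [Algebra K R] [CommRing R'] [Algebra K R']
  [Group G] [Finite G] (A : G →* (R →ₐ[K] R)) (A' : G →* (R' →ₐ[K] R')) (ε : R' →ₐ[K] R)

lemma nrm_hom (hε : ∀ g x, ε (A' g x) = A g (ε x)) (H : Subgroup G) (z : R') :
    nrm A H (ε z) = ε (nrm A' H z) := by
  rw [nrm, nrm, map_prod]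
  exact Finset.prod_congr rfl fun h _ => (hε _ _).symm

lemma trc_hom (hε : ∀ g x, ε (A' g x) = A g (ε x)) (H : Subgroup G) (z : R') :
    trc A H (ε z) = ε (trc A' H z) := by
  rw [trc, trc, map_sum]
  exact Finset.sum_congr rfl fun h _ => (hε _ _).symm

lemma chr_hom (hε : ∀ g x, ε (A' g x) = A g (ε x)) (H : Subgroup G) (z : R') :
    chr A H (ε z) = (chr A' H z).map (ε : R' →+* R) := by
  rw [chr, chr, Polynomial.map_prod]
  refine Finset.prod_congr rfl fun x _ => ?_
  rw [Polynomial.map_sub, map_X, map_C]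
  change _ = X - C (ε (A' x.out z))
  rw [hε]

end hom

end Pool.Agent.Q109.Polar
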