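import Pool.Agent.Q109.Polar.E
import Pool.Agent.Q109.Polar.Defs

/-!
The concrete setting.
-/

set_option autoImplicit false
set_option linter.unusedSectionVars false

namespace Pool.Agent.Q109.Polar

open MvPolynomial

universe u v w

section basic

variable {k : Type u} {G : Type v} [Field k] [Group G] {m : ℕ}
  (ρ : G →* Matrix (Fin m) (Fin m) k)

lemma actV_comp (g h : G) : (actV ρ g).comp (actV ρ h) = actV ρ (h * g) := by
  apply algHom_ext
  intro a
  simp only [actV, AlgHom.comp_apply, aeval_X, map_sum, map_mul, Matrix.mul_apply, algHom_C,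
    algebraMap_eq, Finset.mul_sum, Finset.sum_mul]
  rw [Finset.sum_comm]
  refine Finset.sum_congr rfl fun b _ => Finset.sum_congr rfl fun c _ => ?_
  ring

lemma act_comp (n : ℕ) (g h : G) : (act ρ n g).comp (act ρ n h) = act ρ n (h * g) := by
  apply algHom_ext
  intro a
  simp only [act, AlgHom.comp_apply, aeval_X, map_sum, map_mul, Matrix.mul_apply, algHom_C,
    algebraMap_eq, Finset.mul_sum, Finset.sum_mul]
  rw [Finset.sum_comm]
  refine Finset.sum_congr rfl fun b _ => Finset.sum_congr rfl fun c _ => ?_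
  ring

lemma actV_one : actV ρ 1 = AlgHom.id k _ := by
  apply algHom_ext
  intro a
  simp only [actV, aeval_X, map_one, Matrix.one_apply, AlgHom.id_apply]
  rw [Finset.sum_eq_single a]
  · simp
  · intro b _ hb
    rw [if_neg (Ne.symm hb), map_zero, zero_mul]
  · intro h
    exact absurd (Finset.mem_univ a) h

lemma act_one (n : ℕ) : act ρ n 1 = AlgHom.id k _ := by
  apply algHom_ext
  rintro ⟨i, a⟩
  simp only [act, aeval_X, map_one, Matrix.one_apply, AlgHom.id_apply]
  rw [Finset.sum_eq_single a]
  · simp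
  · intro b _ hb
    rw [if_neg (Ne.symm hb), map_zero, zero_mul]
  · intro h
    exact absurd (Finset.mem_univ a) h

/-- the left action on `k[V]` -/
noncomputable def AV : G →* (MvPolynomial (Fin m) k →ₐ[k] MvPolynomial (Fin m) k) where
  toFun g := actV ρ g⁻¹
  map_one' := by rw [inv_one, actV_one]; rfl
  map_mul' g h := by
    change _ = (actV ρ g⁻¹).comp (actV ρ h⁻¹)
    rw [actV_comp, mul_inv_rev]

/-- the left action on `k[V ^ n]` -/
noncomputable def AN (n : ℕ) :
    G →* (MvPolynomial (Fin n × Fin m) k →ₐ[k] MvPolynomial (Fin n × Fin m) k) where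
  toFun g := act ρ n g⁻¹
  map_one' := by rw [inv_one, act_one]; rfl
  map_mul' g h := by
    change _ = (act ρ n g⁻¹).comp (act ρ n h⁻¹)
    rw [act_comp, mul_inv_rev]

/-- polarizations commute with the action -/
lemma polar_act (n : ℕ) (g : G) (f : MvPolynomial (Fin m) k) :
    map (act ρ n g : MvPolynomial (Fin n × Fin m) k →+* MvPolynomial (Fin n × Fin m) k)
      (polar n f) = polar n (actV ρ g f) := by
  have h1 : (map (act ρ n g : MvPolynomial (Fin n × Fin m) k →+*
      MvPolynomial (Fin n × Fin m) k)).comp (polar n : MvPolynomial (Fin m) k →ₐ[k] _).toRingHom =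
      ((polar n).comp (actV ρ g)).toRingHom := by
    apply ringHom_ext
    · intro r
      simp only [polar, actV, RingHom.comp_apply, AlgHom.toRingHom_eq_coe, RingHom.coe_coe,
        algHom_C, AlgHom.comp_apply, MvPolynomial.algebraMap_apply, map_C]
    · intro a
      simp only [polar, actV, act, RingHom.comp_apply, AlgHom.toRingHom_eq_coe, RingHom.coe_coe,
        AlgHom.comp_apply, aeval_X, map_sum, map_mul, map_X, map_C, algHom_C,
        MvPolynomial.algebraMap_apply, Finset.mul_sum, Algebra.algebraMap_self_apply]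
      rw [Finset.sum_comm]
      refine Finset.sum_congr rfl fun b _ => Finset.sum_congr rfl fun c _ => ?_
      ring
  exact DFunLike.congr_fun h1 f

lemma P_inv (n : ℕ) (u : MvPolynomial (Fin n × Fin m) k) (hu : u ∈ P ρ n) (g : G) :
    act ρ n g u = u := by
  induction hu using Algebra.adjoin_induction with
  | mem x hx =>
    obtain ⟨f, hf, β, rfl⟩ := hx
    have h1 := polar_act ρ n g f
    rw [hf] at h1
    have h2 := congrArg (coeff β) h1
    rw [coeff_map] at h2
    exact h2
  | algebraMap r => exact (act ρ n g).commutes r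
  | add x y _ _ hx hy => rw [map_add, hx, hy]
  | mul x y _ _ hx hy => rw [map_mul, hx, hy]

/-- the bilinear form with values in linear forms -/
noncomputable def Z (n : ℕ) : (Fin m → k) →ₗ[k] (Fin n → k) →ₗ[k] MvPolynomial (Fin n × Fin m) k :=
  LinearMap.mk₂ k (fun t s => ∑ i, ∑ a, (t a * s i) • X (i, a))
    (fun t t' s => by
      simp only [Pi.add_apply, add_mul, add_smul, Finset.sum_add_distrib])
    (fun c t s => by
      simp only [Pi.smul_apply, smul_eq_mul, Finset.smul_sum, smul_smul, mul_assoc])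
    (fun t s s' => by
      simp only [Pi.add_apply, mul_add, add_smul, Finset.sum_add_distrib])
    (fun c t s => by
      simp only [Pi.smul_apply, smul_eq_mul, Finset.smul_sum, smul_smul]
      refine Finset.sum_congr rfl fun b _ => Finset.sum_congr rfl fun a _ => ?_
      congr 1
      ring)

lemma Z_apply (n : ℕ) (t : Fin m → k) (s : Fin n → k) :
    Z n t s = ∑ i, ∑ a, (t a * s i) • X (i, a) := rfl

/-- the linear form with coefficients `t` -/
noncomputable def lin (t : Fin m → k) : MvPolynomial (Fin m) k := ∑ a, t a • X a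

/-- the substitution `v ↦ (s_i v)_i` -/
noncomputable def ev (n : ℕ) (s : Fin n → k) :
    MvPolynomial (Fin m) k →ₐ[k] MvPolynomial (Fin n × Fin m) k :=
  aeval fun a => ∑ i, C (s i) * X (i, a)

lemma ev_lin (n : ℕ) (t : Fin m → k) (s : Fin n → k) : ev n s (lin t) = Z n t s := by
  rw [lin, map_sum, Z_apply, Finset.sum_comm]
  refine Finset.sum_congr rfl fun a _ => ?_
  rw [map_smul, ev, aeval_X, Finset.smul_sum]
  refine Finset.sum_congr rfl fun i _ => ?_
  rw [← smul_eq_C_mul, smul_smul]

lemma ev_act (n : ℕ) (s : Fin n → k) (g : G) (f : MvPolynomial (Fin m) k) :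
    ev n s (AV ρ g f) = AN ρ n g (ev n s f) := by
  have h1 : (ev n s).comp (AV ρ g) = (AN ρ n g).comp (ev n s) := by
    apply algHom_ext
    intro a
    change ev n s (actV ρ g⁻¹ (X a)) = act ρ n g⁻¹ (ev n s (X a))
    simp only [ev, actV, act, aeval_X, map_sum, map_mul, algHom_C, algebraMap_eq, Finset.mul_sum]
    rw [Finset.sum_comm]
    refine Finset.sum_congr rfl fun b _ => Finset.sum_congr rfl fun c _ => ?_
    ring
  exact DFunLike.congr_fun h1 f

lemma Z_act (n : ℕ) (g : G) (t : Fin m → k) (s : Fin n → k) :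
    ∃ t' : Fin m → k, AN ρ n g (Z n t s) = Z n t' s := by
  refine ⟨fun b => ∑ a, t a * ρ g⁻¹ a b, ?_⟩
  change act ρ n g⁻¹ _ = _
  simp only [Z_apply, map_sum, map_smul, act, aeval_X]
  refine Finset.sum_congr rfl fun i _ => ?_
  simp only [Finset.smul_sum, ← smul_eq_C_mul, smul_smul, Finset.sum_mul, Finset.sum_smul]
  rw [Finset.sum_comm]
  refine Finset.sum_congr rfl fun b _ => Finset.sum_congr rfl fun a _ => ?_
  congr 1
  ring

lemma X_cl (n : ℕ) (ia : Fin n × Fin m) : (X ia : MvPolynomial (Fin n × Fin m) k) ∈ cl (Z n) := by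
  apply Submonoid.subset_closure
  left
  refine ⟨Pi.single ia.2 1, Pi.single ia.1 1, ?_⟩
  rw [Z_apply, Finset.sum_eq_single ia.1, Finset.sum_eq_single ia.2]
  · simp
  · intro b _ hb
    rw [Pi.single_eq_of_ne hb, zero_mul, zero_smul]
  · intro h; exact absurd (Finset.mem_univ _) h
  · intro b _ hb
    simp [Pi.single_eq_of_ne hb]
  · intro h; exact absurd (Finset.mem_univ _) h

lemma monomial_cl (n : ℕ) (d : (Fin n × Fin m) →₀ ℕ) (c : k) :
    monomial d c ∈ cl (Z n) := by
  have h1 : (C c : MvPolynomial (Fin n × Fin m) k) ∈ cl (Z n) := by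
    apply Submonoid.subset_closure
    right
    exact ⟨c, rfl⟩
  have h2 : (d.prod fun i e => (X i : MvPolynomial (Fin n × Fin m) k) ^ e) ∈ cl (Z n) := by
    apply Submonoid.prod_mem
    intro i _
    apply Submonoid.pow_mem
    exact X_cl n i
  rw [monomial_eq]
  exact Submonoid.mul_mem _ h1 h2

end basic

end Pool.Agent.Q109.Polar
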