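import Pool.Agent.Q109.Polar.Descent

/-!
The uniform bound.
-/

set_option autoImplicit false
set_option linter.unusedSectionVars false

namespace Pool.Agent.Q109.Polar

open MvPolynomial

universe u v w

section

variable {k : Type u} {G : Type v} {K : Type w} [Field k] [Group G] {m : ℕ} [Field K] [Algebra k K]
  (ρ : G →* Matrix (Fin m) (Fin m) k)

/-- the bound over an infinite extension field -/
theorem bound_ext [Finite G] [Infinite K] (p a b e : ℕ) [Fact p.Prime] [CharP K p]
    (hcard : Nat.card G ≤ p ^ e) (hG : Nat.card G = p ^ a * b) (hb : ¬ p ∣ b) (n : ℕ)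
    (F : MvPolynomial (Fin n × Fin m) K) (hF : ∀ g, AN (ext K ρ) n g F = F) :
    F ^ p ^ (a + e) ∈ PK K ρ n := by
  have hch : CharP (MvPolynomial (Fin n × Fin m) K) p :=
    charP_of_injective_algebraMap (MvPolynomial.C_injective _ _) p
  have hlin : ∀ (t : Fin m → K) (s : Fin n → K), Z n t s = ev n s (lin t) :=
    fun t s => (ev_lin n t s).symm
  refine main_abs p a b e (AN (ext K ρ) n) (PK K ρ n) (fun u hu g => PK_inv ρ n u hu g) (Z n) hcard
    hG hb ?_ ?_ (fun g t s => Z_act (ext K ρ) n g t s) (J := F.support)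
    (fun d => monomial d.1 (coeff d.1 F)) (fun d => monomial_cl n _ _) F ?_ hF
  · intro H t s c
    rw [hlin, nrm_hom (AN (ext K ρ) n) (AV (ext K ρ)) (ev n s) (fun g x => ev_act _ n s g x),
      ← map_pow, trc_hom (AN (ext K ρ) n) (AV (ext K ρ)) (ev n s) (fun g x => ev_act _ n s g x)]
    refine ev_mem' ρ n s _ fun g => ?_
    exact act_trc _ H _ (nrm_pow_inv _ H _ c) g
  · intro H t s c
    rw [hlin, nrm_hom (AN (ext K ρ) n) (AV (ext K ρ)) (ev n s) (fun g x => ev_act _ n s g x),
      chr_hom (AN (ext K ρ) n) (AV (ext K ρ)) (ev n s) (fun g x => ev_act _ n s g x),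
      Polynomial.coeff_map]
    refine ev_mem' ρ n s _ fun g => ?_
    refine act_chr _ H _ (fun h hh => ?_) g c
    have := nrm_pow_inv (AV (ext K ρ)) H (lin t) 1 h hh
    rwa [pow_one] at this
  · conv_rhs => rw [← support_sum_monomial_coeff F]
    rw [← Finset.sum_coe_sort F.support (fun d => monomial d (coeff d F))]
    exact Finset.sum_congr (Finset.ext fun x => by simp) fun _ _ => rfl

end

/-- the uniform bound for the exponent -/
theorem uniform_bound (p : ℕ) [Fact p.Prime] (k : Type u) [Field k] [CharP k p] (G : Type v)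
    [Group G] [Finite G] (m : ℕ) (ρ : G →* Matrix (Fin m) (Fin m) k) :
    ∃ d : ℕ, p ^ d ≤ p * Nat.card G ^ 2 ∧
      ∀ (n : ℕ) (f : MvPolynomial (Fin n × Fin m) k), (∀ g, act ρ n g f = f) →
        f ^ p ^ d ∈ P ρ n := by
  have hp : p.Prime := Fact.out
  have hGpos : 0 < Nat.card G := Nat.card_pos
  obtain ⟨a, b, hb, hG⟩ := Nat.exists_eq_pow_mul_and_not_dvd hGpos.ne' p hp.ne_one
  have hbpos : 0 < b := by
    rcases Nat.eq_zero_or_pos b with h | h
    · rw [h, mul_zero] at hG
      omega
    · exact h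
  have hpa : p ^ a ≤ Nat.card G := by
    rw [hG]
    exact Nat.le_mul_of_pos_right _ hbpos
  set e := Nat.clog p (Nat.card G) with he
  have hcard : Nat.card G ≤ p ^ e := Nat.le_pow_clog hp.one_lt _
  have hpe : p ^ e ≤ p * Nat.card G := by
    rcases Nat.lt_or_ge 1 (Nat.card G) with h | h
    · have h1 := Nat.pow_pred_clog_lt_self hp.one_lt h
      rw [← he] at h1
      have h2 : 0 < e := Nat.clog_pos hp.one_lt h
      have h3 : p ^ e = p * p ^ e.pred := by
        conv_lhs => rw [← Nat.succ_pred_eq_of_pos h2]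
        rw [pow_succ, mul_comm]
      rw [h3]
      exact Nat.mul_le_mul_left _ h1.le
    · have h1 : Nat.card G = 1 := by omega
      have h2 : e = 0 := by rw [he, h1, Nat.clog_one_right]
      rw [h2, h1, pow_zero, mul_one]
      exact hp.one_lt.le
  refine ⟨a + e, ?_, fun n f hf => ?_⟩
  · calc p ^ (a + e) = p ^ a * p ^ e := pow_add _ _ _
      _ ≤ Nat.card G * (p * Nat.card G) := Nat.mul_le_mul hpa hpe
      _ = p * Nat.card G ^ 2 := by ring
  · have hK : CharP (AlgebraicClosure k) p :=
      charP_of_injective_algebraMap (algebraMap k (AlgebraicClosure k)).injective p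
    have h1 := bound_ext (K := AlgebraicClosure k) ρ p a b e hcard hG hb n
      (map (algebraMap k (AlgebraicClosure k)) f) (fun g => by
        change act (ext _ ρ) n g⁻¹ _ = _
        rw [hom_map (act ρ n g⁻¹) (act (ext _ ρ) n g⁻¹) (act_ext ρ n g⁻¹), hf])
    rw [← map_pow] at h1
    obtain ⟨L, hL⟩ := (Algebra.linearMap k (AlgebraicClosure k)).exists_leftInverse_of_injective
      (LinearMap.ker_eq_bot.2 (algebraMap k (AlgebraicClosure k)).injective)
    have h2 : L 1 = 1 := by
      have := DFunLike.congr_fun hL 1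
      simpa using this
    have h3 := PK_Lh ρ n _ h1 L
    rwa [Lh_map L h2] at h3

end Pool.Agent.Q109.Polar
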